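import Mathlib

set_option autoImplicit false

namespace Pool.Agent.Results.MP_771c73_an.No

open Finset

lemma avg (T : Finset ℕ) (i : ℕ) (hi : i ∈ T) (a : ℕ → ℂ) :
    ∑ S ∈ T.powerset, (if i ∈ S then (-1 : ℂ) else 1) *
      ∏ j ∈ T, (1 + (if j ∈ S then (-1 : ℂ) else 1) * a j) = 2 ^ T.card * a i := by
  have h := Finset.prod_add (fun j => (if j = i then (-1 : ℂ) else 1) * (1 - a j))
    (fun j => 1 + a j) T
  have h2 : ∏ j ∈ T, ((if j = i then (-1 : ℂ) else 1) * (1 - a j) + (1 + a j))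
      = 2 ^ T.card * a i := by
    have : ∀ j ∈ T, ((if j = i then (-1 : ℂ) else 1) * (1 - a j) + (1 + a j))
        = 2 * (if j = i then a j else 1) := by
      intro j _
      split_ifs <;> ring
    rw [Finset.prod_congr rfl this, Finset.prod_mul_distrib, Finset.prod_const,
      Finset.prod_ite_eq' T i a, if_pos hi]
  rw [← h2, h]
  refine Finset.sum_congr rfl (fun S hS => ?_)
  have hST : S ⊆ T := Finset.mem_powerset.1 hS
  rw [← Finset.prod_sdiff hST, Finset.prod_mul_distrib,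
    Finset.prod_ite_eq' S i (fun _ => (-1 : ℂ))]
  have e1 : ∏ j ∈ T \ S, (1 + (if j ∈ S then (-1 : ℂ) else 1) * a j) = ∏ j ∈ T \ S, (1 + a j) :=
    Finset.prod_congr rfl (fun j hj => by rw [if_neg (Finset.mem_sdiff.1 hj).2, one_mul])
  have e2 : ∏ j ∈ S, (1 + (if j ∈ S then (-1 : ℂ) else 1) * a j) = ∏ j ∈ S, (1 - a j) :=
    Finset.prod_congr rfl (fun j hj => by rw [if_pos hj]; ring)
  rw [e1, e2]
  ring

lemma nb (T : Finset ℕ) (t : ℝ) (c : ℕ → ℝ) (hc : ∀ j, c j ^ 2 = t ^ 2) :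
    |(∏ j ∈ T, (1 + (c j : ℂ) * Complex.I)).im| ≤ Real.exp (T.card * t ^ 2) := by
  refine (Complex.abs_im_le_norm _).trans ?_
  rw [norm_prod, Real.exp_nat_mul, ← Finset.prod_const]
  refine Finset.prod_le_prod (fun _ _ => norm_nonneg _) (fun j _ => ?_)
  refine le_trans ?_ (Real.add_one_le_exp _)
  have h1 : ‖1 + (c j : ℂ) * Complex.I‖ ^ 2 = 1 + t ^ 2 := by
    rw [← Complex.normSq_eq_norm_sq, Complex.normSq_apply, ← hc j]
    simp
    ring
  have h2 : 0 ≤ t ^ 2 := sq_nonneg t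
  exact abs_le_of_sq_le_sq' (by rw [h1]; nlinarith) (by linarith) |>.2

lemma core {𝕜 : Type} [RCLike 𝕜] (r : ℕ → C(ℕ → Bool, 𝕜))
    (hr : ∀ j y, r j y = if y j then -1 else 1)
    (F : Finset ℕ → (C(ℕ → Bool, 𝕜) →L[𝕜] 𝕜)) (M : ℝ) (hM : ∀ S, ‖F S‖ ≤ M)
    (hF : ∀ S j, F S (r j) = if j ∈ S then -1 else 1)
    (hid : ∀ S, F ∅ - F S = ∑ i ∈ S, (F ∅ - F {i})) : False := by
  obtain ⟨m, hm⟩ := exists_nat_gt (3 * M)
  have hM0 : 0 ≤ M := (F ∅).opNorm_nonneg.trans (hM ∅)
  have hm0 : (0 : ℝ) < m := by linarith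
  set T := Finset.range (m ^ 2) with hT
  have hcard : T.card = m ^ 2 := by simp [hT]
  set t : ℝ := 1 / m with ht
  let ρ : ℕ → (ℕ → Bool) → ℝ := fun j y => if y j then -1 else 1
  have hρ : ∀ j, Continuous (ρ j) := fun j =>
    (continuous_of_discreteTopology (f := fun b : Bool => if b then (-1 : ℝ) else 1)).comp
      (continuous_apply j)
  let H : Finset ℕ → C(ℕ → Bool, 𝕜) := fun S =>
    ⟨fun y => (((∏ j ∈ T, (1 + (((if j ∈ S then (-1 : ℝ) else 1) * (t * ρ j y) : ℝ) : ℂ)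
      * Complex.I)).im : ℝ) : 𝕜), by fun_prop⟩
  have hH : ∀ S, ‖H S‖ ≤ 3 := by
    intro S
    refine (ContinuousMap.norm_le _ (by norm_num)).2 (fun y => ?_)
    show ‖(((∏ j ∈ T, (1 + (((if j ∈ S then (-1 : ℝ) else 1) * (t * ρ j y) : ℝ) : ℂ)
      * Complex.I)).im : ℝ) : 𝕜)‖ ≤ 3
    rw [RCLike.norm_ofReal]
    refine (nb T t _ (fun j => ?_)).trans ?_
    · simp only [ρ]
      split_ifs <;> ring
    · have : (T.card : ℝ) * t ^ 2 = 1 := by
        rw [hcard, ht]; push_cast; field_simp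
      rw [this]
      exact Real.exp_one_lt_three.le
  have havg : ∀ i ∈ T, ∑ S ∈ T.powerset, (if i ∈ S then (-1 : 𝕜) else 1) • H S
      = ((2 ^ T.card * t : ℝ) : 𝕜) • r i := by
    intro i hi
    ext y
    have h := congrArg Complex.im (avg T i hi (fun j => ((t * ρ j y : ℝ) : ℂ) * Complex.I))
    rw [Complex.im_sum] at h
    have e1 : ((2 : ℂ) ^ T.card * (((t * ρ i y : ℝ) : ℂ) * Complex.I)).im
        = 2 ^ T.card * t * ρ i y := by
      rw [show (2 : ℂ) ^ T.card * (((t * ρ i y : ℝ) : ℂ) * Complex.I)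
        = ((2 ^ T.card * t * ρ i y : ℝ) : ℂ) * Complex.I by push_cast; ring]
      simp only [Complex.mul_im, Complex.ofReal_re, Complex.I_im, mul_one, Complex.ofReal_im,
        Complex.I_re, mul_zero, add_zero]
    rw [e1] at h
    have e2 : (((2 ^ T.card * t : ℝ) : 𝕜) • r i) y = ((2 ^ T.card * t * ρ i y : ℝ) : 𝕜) := by
      rw [ContinuousMap.smul_apply, hr, smul_eq_mul]
      simp only [ρ]
      split_ifs <;> push_cast <;> ring
    rw [e2, ← h, ContinuousMap.sum_apply]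
    push_cast
    refine Finset.sum_congr rfl (fun S _ => ?_)
    have e3 : ∏ j ∈ T, (1 + (((if j ∈ S then (-1 : ℝ) else 1) * (t * ρ j y) : ℝ) : ℂ) * Complex.I)
        = ∏ j ∈ T, (1 + (if j ∈ S then (-1 : ℂ) else 1) * ((t : ℂ) * (ρ j y : ℂ) * Complex.I)) :=
      Finset.prod_congr rfl (fun j _ => by split_ifs <;> push_cast <;> ring)
    show (if i ∈ S then (-1 : 𝕜) else 1) • (((∏ j ∈ T, (1 + (((if j ∈ S then (-1 : ℝ) else 1)
      * (t * ρ j y) : ℝ) : ℂ) * Complex.I)).im : ℝ) : 𝕜) = _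
    rw [e3]
    split_ifs <;> simp
  have hsum : ∀ S ∈ T.powerset, ∑ i ∈ T, (if i ∈ S then (-1 : 𝕜) else 1) • (F ∅ - F {i})
      = F S - F (T \ S) := by
    intro S hS
    have hST : S ⊆ T := Finset.mem_powerset.1 hS
    rw [← Finset.sum_sdiff hST]
    have e1 : ∑ i ∈ T \ S, (if i ∈ S then (-1 : 𝕜) else 1) • (F ∅ - F {i})
        = ∑ i ∈ T \ S, (F ∅ - F {i}) :=
      Finset.sum_congr rfl (fun j hj => by rw [if_neg (Finset.mem_sdiff.1 hj).2, one_smul])
    have e2 : ∑ i ∈ S, (if i ∈ S then (-1 : 𝕜) else 1) • (F ∅ - F {i})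
        = -∑ i ∈ S, (F ∅ - F {i}) := by
      rw [← Finset.sum_neg_distrib]
      exact Finset.sum_congr rfl (fun j hj => by rw [if_pos hj]; ext x; simp)
    rw [e1, e2, ← hid, ← hid]
    abel
  have hmain : ∑ S ∈ T.powerset, (F S - F (T \ S)) (H S)
      = ((2 ^ T.card * (2 * m) : ℝ) : 𝕜) := by
    have e1 : ∀ S ∈ T.powerset, (F S - F (T \ S)) (H S)
        = ∑ i ∈ T, (F ∅ - F {i}) ((if i ∈ S then (-1 : 𝕜) else 1) • H S) := by
      intro S hS
      rw [← hsum S hS, _root_.sum_apply]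
      refine Finset.sum_congr rfl (fun i _ => ?_)
      rw [map_smul, _root_.smul_apply]
    rw [Finset.sum_congr rfl e1, Finset.sum_comm]
    have e2 : ∀ i ∈ T, ∑ S ∈ T.powerset, (F ∅ - F {i}) ((if i ∈ S then (-1 : 𝕜) else 1) • H S)
        = ((2 ^ T.card * t * 2 : ℝ) : 𝕜) := by
      intro i hi
      rw [← map_sum, havg i hi, map_smul, _root_.sub_apply, hF, hF,
        if_neg (Finset.notMem_empty i), if_pos (Finset.mem_singleton_self i), smul_eq_mul]
      push_cast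
      ring
    rw [Finset.sum_congr rfl e2, Finset.sum_const, nsmul_eq_mul, ← RCLike.ofReal_natCast,
      ← RCLike.ofReal_mul]
    congr 1
    rw [ht]
    nth_rewrite 1 [hcard]
    push_cast
    field_simp
  have hb : ‖∑ S ∈ T.powerset, (F S - F (T \ S)) (H S)‖ ≤ 2 ^ T.card * (2 * M * 3) := by
    refine (norm_sum_le _ _).trans ?_
    have : ∀ S ∈ T.powerset, ‖(F S - F (T \ S)) (H S)‖ ≤ 2 * M * 3 := by
      intro S _
      refine ((F S - F (T \ S)).le_opNorm _).trans ?_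
      have := (norm_sub_le (F S) (F (T \ S))).trans (add_le_add (hM _) (hM _))
      exact mul_le_mul (by linarith) (hH S) (norm_nonneg _) (by linarith)
    refine (Finset.sum_le_card_nsmul _ _ _ this).trans_eq ?_
    rw [Finset.card_powerset, nsmul_eq_mul]
    push_cast
    ring
  rw [hmain, RCLike.norm_ofReal, abs_of_nonneg (by positivity)] at hb
  have := le_of_mul_le_mul_left hb (by positivity)
  linarith

theorem result (𝕜 : Type) [RCLike 𝕜] :
    ∃ (E : Type) (_ : NormedAddCommGroup E) (_ : NormedSpace 𝕜 E),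
      CompleteSpace E ∧ TopologicalSpace.SeparableSpace E ∧
      ∃ G : Submodule 𝕜 E, IsClosed (G : Set E) ∧
        ∃ φ : ℕ → (G →L[𝕜] 𝕜), (∃ M : ℝ, ∀ n, ‖φ n‖ ≤ M) ∧
          ∀ f : ℕ → (E →L[𝕜] 𝕜), (∀ n, ∀ g : G, f n g = φ n g) → (∃ M : ℝ, ∀ n, ‖f n‖ ≤ M) →
            ¬ Dense {x : E | ∃ g ∈ G, ∃ y : E, (∀ n, f n y = 0) ∧ x = g + y} := by
  let r : ℕ → C(ℕ → Bool, 𝕜) := fun j => ⟨fun y => if y j then -1 else 1,
    (continuous_of_discreteTopology (f := fun b : Bool => if b then (-1 : 𝕜) else 1)).comp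
      (continuous_apply j)⟩
  obtain ⟨e, he⟩ := exists_surjective_nat (Finset ℕ)
  refine ⟨C(ℕ → Bool, 𝕜), inferInstance, inferInstance, inferInstance, inferInstance,
    (Submodule.span 𝕜 (Set.range r)).topologicalClosure, Submodule.isClosed_topologicalClosure _,
    fun n => (ContinuousMap.evalCLM 𝕜 (fun j => decide (j ∈ e n))).comp (Submodule.subtypeL _),
    ⟨1, fun n => ?_⟩, ?_⟩
  · refine ContinuousLinearMap.opNorm_le_bound _ zero_le_one (fun g => ?_)
    rw [one_mul]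
    exact ContinuousMap.norm_coe_le_norm g.1 _
  · rintro f hf ⟨M, hM⟩ hd
    choose k hk using he
    have hF : ∀ S j, f (k S) (r j) = if j ∈ S then -1 else 1 := by
      intro S j
      have := hf (k S) ⟨r j, Submodule.le_topologicalClosure _ (Submodule.subset_span ⟨j, rfl⟩)⟩
      rw [this]
      simp [r, hk]
    refine core r (fun _ _ => rfl) (fun S => f (k S)) M (fun S => hM _) hF (fun S => ?_)
    rw [← sub_eq_zero]
    set L := f (k ∅) - f (k S) - ∑ i ∈ S, (f (k ∅) - f (k {i})) with hL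
    have h1 : (Submodule.span 𝕜 (Set.range r)).topologicalClosure ≤ LinearMap.ker L.toLinearMap := by
      refine Submodule.topologicalClosure_minimal _ (Submodule.span_le.2 ?_) L.isClosed_ker
      rintro _ ⟨j, rfl⟩
      show L (r j) = 0
      simp only [hL, _root_.sub_apply, _root_.sum_apply, hF,
        Finset.notMem_empty, if_false, Finset.mem_singleton]
      have : ∀ i ∈ S, (1 - if j = i then (-1 : 𝕜) else 1) = if j = i then 2 else 0 := by
        intro i _
        split_ifs <;> ring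
      rw [Finset.sum_congr rfl this, Finset.sum_ite_eq S j (fun _ => (2 : 𝕜))]
      split_ifs <;> ring
    have h2 : (L : C(ℕ → Bool, 𝕜) → 𝕜) = fun _ => 0 := by
      refine Continuous.ext_on hd L.continuous continuous_const ?_
      rintro _ ⟨g, hg, y, hy, rfl⟩
      have h3 : L g = 0 := h1 hg
      have h4 : L y = 0 := by
        simp [hL, hy]
      rw [map_add, h3, h4, add_zero]
    ext x
    exact congrFun h2 x

end Pool.Agent.Results.MP_771c73_an.No
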